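import Pool.Agent.Q34.CF.Pts

/-!
# A smooth plane curve of degree `p` all of whose points have degree divisible by `p`
-/

set_option autoImplicit false

open Module IsDedekindDomain MvPolynomial

namespace Pool.Agent.Q34.CF

universe u v w

section

/-- The plane curve `G = 0` is smooth: over every extension field `Ω` of `k` there is no point where
`G` and its partial derivatives vanish. -/
def IsSmooth {k : Type u} [Field k] (G : MvPolynomial (Fin 3) k) : Prop :=
  ∀ (Ω : Type u) [Field Ω] [Algebra k Ω] (x : Fin 3 → Ω), aeval x G = 0 →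
    (∀ i, aeval x (pderiv i G) = 0) → x = 0

/-- The plane curve `G = 0` has a point over an extension field of `k` of degree `n`. -/
def HasPoint {k : Type u} [Field k] (G : MvPolynomial (Fin 3) k) (n : ℕ) : Prop :=
  ∃ (L : Type u) (_ : Field L) (_ : Algebra k L), FiniteDimensional k L ∧ finrank k L = n ∧
    ∃ x : Fin 3 → L, x ≠ 0 ∧ aeval x G = 0

/-- `X ^ p + s Y ^ p + s ^ 2 Z ^ p + s ^ 2 (X ^ (p - 1) Y + Y ^ (p - 1) Z)` -/
noncomputable def form {k : Type u} [Field k] (p : ℕ) (s : k) : MvPolynomial (Fin 3) k :=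
  X 0 ^ p + C s * X 1 ^ p + C s ^ 2 * X 2 ^ p +
    C s ^ 2 * (X 0 ^ (p - 1) * X 1 + X 1 ^ (p - 1) * X 2)

variable {k : Type u} [Field k] {p : ℕ}

lemma form_hom (hp : 0 < p) (s : k) : (form p s).IsHomogeneous p := by
  have h1 : ∀ i : Fin 3, (X i ^ p : MvPolynomial (Fin 3) k).IsHomogeneous p := fun i =>
    isHomogeneous_X_pow i p
  have h2 : ∀ i j : Fin 3, (X i ^ (p - 1) * X j : MvPolynomial (Fin 3) k).IsHomogeneous p := by
    intro i j
    have := (isHomogeneous_X_pow (R := k) i (p - 1)).mul (isHomogeneous_X k j)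
    rwa [Nat.sub_add_cancel hp] at this
  have h3 : ∀ (c : k) (f : MvPolynomial (Fin 3) k), f.IsHomogeneous p →
      (C c * f).IsHomogeneous p := fun c f hf => by
    have := (isHomogeneous_C (Fin 3) c).mul hf
    rwa [zero_add] at this
  have e : (C s : MvPolynomial (Fin 3) k) ^ 2 = C (s ^ 2) := by rw [map_pow]
  rw [form, e]
  exact (((h1 0).add (h3 _ _ (h1 1))).add (h3 _ _ (h1 2))).add (h3 _ _ ((h2 0 1).add (h2 1 2)))

lemma aeval_form {L : Type v} [Field L] [Algebra k L] (s : k) (x : Fin 3 → L) :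
    aeval x (form p s) = x 0 ^ p + algebraMap k L s * x 1 ^ p + algebraMap k L s ^ 2 * x 2 ^ p +
      algebraMap k L s ^ 2 * (x 0 ^ (p - 1) * x 1 + x 1 ^ (p - 1) * x 2) := by
  simp [form]

lemma form_smooth (hp : 3 ≤ p) [CharP k p] {s : k} (hs : s ≠ 0) : IsSmooth (form p s) := by
  intro Ω _ _ x h0 hx
  have hpk : (p : MvPolynomial (Fin 3) k) = 0 := by
    rw [← map_natCast (C : k →+* _) p, CharP.cast_eq_zero, map_zero]
  have hs' : algebraMap k Ω s ≠ 0 := by
    rw [Ne, map_eq_zero]
    exact hs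
  have h2 := hx 2
  have e2 : pderiv 2 (form p s) = C s ^ 2 * X 1 ^ (p - 1) := by
    simp only [form, map_add, Derivation.leibniz, Derivation.leibniz_pow, pderiv_C, smul_zero,
      zero_smul, pderiv_X, nsmul_eq_mul, smul_eq_mul, hpk]
    simp
  rw [e2] at h2
  simp only [map_mul, map_pow, aeval_C, aeval_X, mul_eq_zero, pow_eq_zero_iff two_ne_zero, hs',
    false_or] at h2
  have h1' : x 1 = 0 := by
    exact (pow_eq_zero_iff (by omega)).1 h2
  have h1 := hx 1
  have e1 : pderiv 1 (form p s) = C s ^ 2 * (X 0 ^ (p - 1) +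
      X 2 * (((p - 1 : ℕ) : MvPolynomial (Fin 3) k) * X 1 ^ (p - 1 - 1))) := by
    simp only [form, map_add, Derivation.leibniz, Derivation.leibniz_pow, pderiv_C, smul_zero,
      zero_smul, pderiv_X, nsmul_eq_mul, smul_eq_mul, hpk]
    simp
  rw [e1] at h1
  simp only [map_mul, map_pow, map_add, aeval_C, aeval_X, h1', map_natCast,
    zero_pow (show p - 1 - 1 ≠ 0 by omega), mul_zero, add_zero, mul_eq_zero,
    pow_eq_zero_iff two_ne_zero, hs', false_or] at h1
  have h0' : x 0 = 0 := (pow_eq_zero_iff (by omega)).1 h1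
  rw [aeval_form, h0', h1', zero_pow (show p ≠ 0 by omega), zero_pow (show p - 1 ≠ 0 by omega)] at h0
  simp only [mul_zero, zero_mul, zero_add, add_zero, mul_eq_zero, pow_eq_zero_iff two_ne_zero, hs',
    false_or] at h0
  have h2' : x 2 = 0 := (pow_eq_zero_iff (by omega)).1 h0
  funext i
  fin_cases i
  · exact h0'
  · exact h1'
  · exact h2'

lemma form_points (hp : p.Prime) (hp2 : p ≠ 2) (R : Type w) [CommRing R] [IsDedekindDomain R]
    [Algebra R k] [IsFractionRing R k] [CharP k p] (P : HeightOneSpectrum R) {s : k}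
    (hs : P.valuation k s = WithZero.exp (-1 : ℤ)) (n : ℕ) (h : HasPoint (form p s) n) : p ∣ n := by
  obtain ⟨L, _, _, hfin, hn, x, hx0, hx⟩ := h
  by_contra hpn
  apply hx0
  rw [aeval_form] at hx
  obtain ⟨h1, h2, h3⟩ := no_zero R k L hp hp2 (hn ▸ hpn) P hs hx
  funext i
  fin_cases i
  · exact h1
  · exact h2
  · exact h3

end

end Pool.Agent.Q34.CF
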