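import Pool.Agent.Y112.SR.Pt
import Pool.Agent.Q34.CF.Curve

/-!
# Objects all of whose endomorphisms have trace zero
-/

set_option autoImplicit false
set_option linter.unusedSectionVars false
set_option backward.isDefEq.respectTransparency false
set_option backward.defeqAttrib.useBackward true

open CategoryTheory Limits MonoidalCategory Module

namespace Pool.Agent.Q34.CF

open Pool.Agent.Y112.SR

universe v u w x

open Functor.LaxMonoidal Functor.OplaxMonoidal

section Defs

variable {C : Type u} [Category.{v} C] [Preadditive C] [MonoidalCategory C] [SymmetricCategory C]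

/-- The trace of an endomorphism of an object of a rigid symmetric monoidal category, an
endomorphism of the unit. -/
def tr [RightRigidCategory C] {M : C} (f : M ⟶ M) : 𝟙_ C ⟶ 𝟙_ C :=
  η_ M Mᘁ ≫ f ▷ Mᘁ ≫ (β_ M Mᘁ).hom ≫ ε_ M Mᘁ

variable {E : Type w} [Field E] (R : SuperRealisation C E)

/-- The projector `π⁺` of the realisation of `M` onto the even part. -/
noncomputable def piPlus (M : C) : End E (R.H.obj M) := (2⁻¹ : E) • (1 + (R.par M).hom)

/-- The projector `π⁻` of the realisation of `M` onto the odd part. -/
noncomputable def piMinus (M : C) : End E (R.H.obj M) := (2⁻¹ : E) • (1 - (R.par M).hom)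

/-- The `E`-linear combinations of the operators attached to the endomorphisms of `M`. -/
noncomputable def alg (M : C) : Submodule E (End E (R.H.obj M)) :=
  Submodule.span E (Set.range fun f : M ⟶ M => (R.H.map f).hom)

end Defs

section

variable {C : Type u} [Category.{v} C] [Preadditive C] [MonoidalCategory C] [SymmetricCategory C]
  [RightRigidCategory C] {E : Type w} [Field E] (R : SuperRealisation C E)

lemma tr_add [MonoidalPreadditive C] {M : C} (f g : M ⟶ M) : tr (f + g) = tr f + tr g := by
  simp [tr, MonoidalPreadditive.add_whiskerRight]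

lemma tr_smul {F : Type x} [Field F] [MonoidalPreadditive C] [Linear F C] [MonoidalLinear F C]
    {M : C} (c : F) (f : M ⟶ M) : tr (c • f) = c • tr f := by
  simp [tr]

lemma map_tr (h2 : (2 : E) ≠ 0) {M : C} (x : M ⟶ M) :
    ε R.H ≫ R.H.map (tr x) ≫ η R.H =
      (LinearMap.trace E (R.H.obj M) ((R.par M).hom * (R.H.map x).hom)) • 𝟙 _ := by
  have h0 := R.finite M
  have h1 := Pool.Agent.Y116.MT.vec_trace (coe R M) (evb R M) (zigzag R M) (R.H.map x ≫ R.par M)
  have h3 : coe R M ≫ R.H.map x ▷ R.H.obj Mᘁ ≫ eva R M =
      (LinearMap.trace E (R.H.obj M) (R.H.map x ≫ R.par M).hom) • 𝟙 _ := by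
    rw [eva_eq R h2, ← h1, ← unit_hom]
    simp only [comp_whiskerRight, Category.assoc]
  have h4 : ((R.par M).hom * (R.H.map x).hom) = (R.H.map x ≫ R.par M).hom := rfl
  rw [h4, ← h3]
  simp only [tr, coe, eva, Functor.map_comp, Functor.Monoidal.map_whiskerRight, Category.assoc]

lemma str_zero (h2 : (2 : E) ≠ 0) {M : C} {x : M ⟶ M} (h : tr x = 0) :
    LinearMap.trace E (R.H.obj M) ((R.par M).hom * (R.H.map x).hom) = 0 := by
  have h1 := map_tr R h2 x
  rw [h, Functor.map_zero, zero_comp, comp_zero] at h1
  have h3 := LinearMap.congr_fun (congrArg ModuleCat.Hom.hom h1) (1 : E)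
  change (0 : E) = (LinearMap.trace E (R.H.obj M) ((R.par M).hom * (R.H.map x).hom)) • (1 : E) at h3
  simpa using h3.symm

lemma par_sq' (M : C) : (R.par M).hom * (R.par M).hom = 1 :=
  congrArg ModuleCat.Hom.hom (R.par_sq M)

lemma trace_piPlus (h2 : (2 : E) ≠ 0) (M : C) :
    LinearMap.trace E (R.H.obj M) ((R.par M).hom * piPlus R M) =
      (finrank E (LinearMap.ker ((R.par M).hom - 1)) : E) := by
  have h0 := R.finite M
  have hsq := par_sq' R M
  have h1 : (R.par M).hom * piPlus R M = piPlus R M := by
    rw [piPlus, mul_smul_comm, mul_add, mul_one, hsq, add_comm]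
  rw [h1]
  have hpr : LinearMap.IsProj (LinearMap.ker ((R.par M).hom - 1)) (piPlus R M) := by
    constructor
    · intro x
      rw [LinearMap.mem_ker]
      have h3 : ((R.par M).hom - 1) * piPlus R M = 0 := by
        rw [sub_mul, h1, one_mul, sub_self]
      exact LinearMap.congr_fun h3 x
    · intro x hx
      rw [LinearMap.mem_ker, LinearMap.sub_apply, sub_eq_zero] at hx
      change (2⁻¹ : E) • (x + (R.par M).hom x) = x
      rw [hx]
      change (2⁻¹ : E) • (x + x) = x
      rw [← two_smul E x, smul_smul, inv_mul_cancel₀ h2, one_smul]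
  exact hpr.trace

/-- If all endomorphisms of `M` have trace zero then `π⁺` and `π⁻` are not linear combinations of
operators of endomorphisms, unless the dimension of the even part is zero in `E`. -/
theorem not_mem_alg (h2 : (2 : E) ≠ 0) (M : C) (h : ∀ f : M ⟶ M, tr f = 0)
    (hd : (finrank E (LinearMap.ker ((R.par M).hom - 1)) : E) ≠ 0) :
    piPlus R M ∉ alg R M ∧ piMinus R M ∉ alg R M := by
  have key : ∀ T ∈ alg R M, LinearMap.trace E (R.H.obj M) ((R.par M).hom * T) = 0 := by
    intro T hT
    induction hT using Submodule.span_induction with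
    | mem T hT =>
      obtain ⟨f, rfl⟩ := hT
      exact str_zero R h2 (h f)
    | zero => rw [mul_zero, map_zero]
    | add S T _ _ hS hT => rw [mul_add, map_add, hS, hT, add_zero]
    | smul c T _ hT => rw [mul_smul_comm, map_smul, hT, smul_zero]
  have h1 : piPlus R M ∉ alg R M := by
    intro hm
    apply hd
    rw [← trace_piPlus R h2 M]
    exact key _ hm
  refine ⟨h1, fun hm => h1 ?_⟩
  have h3 : (1 : End E (R.H.obj M)) ∈ alg R M := by
    apply Submodule.subset_span
    refine ⟨𝟙 M, ?_⟩
    simp only [CategoryTheory.Functor.map_id]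
    rfl
  have h4 : piPlus R M = 1 - piMinus R M := by
    have h5 : piPlus R M + piMinus R M = 1 := by
      rw [piPlus, piMinus, ← smul_add, add_add_sub_cancel, ← two_smul E (1 : End E (R.H.obj M)),
        smul_smul, inv_mul_cancel₀ h2, one_smul]
    exact eq_sub_of_add_eq h5
  rw [h4]
  exact Submodule.sub_mem _ h3 hm

end

end Pool.Agent.Q34.CF
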