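import Pool.Agent.Q34.CF.Mot

/-!
# The even projector from two morphisms to and from the unit
-/

set_option autoImplicit false
set_option linter.unusedSectionVars false
set_option backward.isDefEq.respectTransparency false
set_option backward.defeqAttrib.useBackward true

open CategoryTheory Limits MonoidalCategory Module

namespace Pool.Agent.Q34.CF

open Pool.Agent.Y112.SR

universe v u w x

open Functor.LaxMonoidal Functor.OplaxMonoidal

section

variable {C : Type u} [Category.{v} C] [Preadditive C] [MonoidalCategory C] [SymmetricCategory C]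
  {E : Type w} [Field E] (R : SuperRealisation C E)

/-- The vector of the realisation attached to a morphism from the unit. -/
noncomputable def vec {M : C} (u : 𝟙_ C ⟶ M) : R.H.obj M := (ε R.H ≫ R.H.map u).hom (1 : E)

/-- The functional attached to a morphism to the unit. -/
noncomputable def fnl {M : C} (u' : M ⟶ 𝟙_ C) : R.H.obj M →ₗ[E] E :=
  (R.H.map u' ≫ η R.H).hom

/-- The scalar attached to an endomorphism of the unit. -/
noncomputable def scl (c : 𝟙_ C ⟶ 𝟙_ C) : E := (ε R.H ≫ R.H.map c ≫ η R.H).hom (1 : E)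

lemma fnl_vec {M : C} (u : 𝟙_ C ⟶ M) (u' : M ⟶ 𝟙_ C) : fnl R u' (vec R u) = scl R (u ≫ u') := by
  rw [scl, Functor.map_comp]
  rfl

lemma scl_zero : scl R (0 : 𝟙_ C ⟶ 𝟙_ C) = 0 := by
  rw [scl, Functor.map_zero, zero_comp, comp_zero]
  rfl

lemma scl_one : scl R (𝟙 (𝟙_ C)) = 1 := by
  rw [scl, CategoryTheory.Functor.map_id, Category.id_comp, Functor.Monoidal.ε_η]
  rfl

lemma scl_comp (c d : 𝟙_ C ⟶ 𝟙_ C) : scl R (c ≫ d) = scl R c * scl R d := by
  have h1 : ε R.H ≫ R.H.map (c ≫ d) ≫ η R.H =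
      (ε R.H ≫ R.H.map c ≫ η R.H) ≫ (ε R.H ≫ R.H.map d ≫ η R.H) := by
    rw [Functor.map_comp]
    simp only [Category.assoc]
    rw [Functor.Monoidal.η_ε_assoc]
  rw [scl, h1, unit_hom (ε R.H ≫ R.H.map c ≫ η R.H)]
  rw [Linear.smul_comp, Category.id_comp]
  rfl

lemma par_vec {M : C} (u : 𝟙_ C ⟶ M) : (R.par M).hom (vec R u) = vec R u := by
  have h1 : (ε R.H ≫ R.H.map u) ≫ R.par M = ε R.H ≫ R.H.map u := by
    rw [Category.assoc, R.par_natural, R.par_unit, Category.id_comp]
  exact LinearMap.congr_fun (congrArg ModuleCat.Hom.hom h1) (1 : E)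

lemma map_vec {M : C} (u : 𝟙_ C ⟶ M) (e : M ⟶ M) :
    (R.H.map e).hom (vec R u) = vec R (u ≫ e) := by
  rw [vec, vec, Functor.map_comp]
  rfl

lemma map_par_of_unit {M : C} (u' : M ⟶ 𝟙_ C) (u : 𝟙_ C ⟶ M) (t : R.H.obj M) :
    (R.H.map (u' ≫ u)).hom ((R.par M).hom t) = (R.H.map (u' ≫ u)).hom t := by
  have h1 : R.par M ≫ R.H.map (u' ≫ u) = R.H.map (u' ≫ u) := by
    rw [Functor.map_comp, ← Category.assoc, ← R.par_natural, R.par_unit, Category.comp_id]
  exact LinearMap.congr_fun (congrArg ModuleCat.Hom.hom h1) t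

/-- Two morphisms from the unit and two to the unit with an invertible matrix of products give the
even projector if the even part has dimension two. -/
theorem exists_plus (h2 : (2 : E) ≠ 0) {F : Type x} [Field F] [Linear F C] {M : C}
    (u w : 𝟙_ C ⟶ M) (u' w' : M ⟶ 𝟙_ C) (a n : F) (hn : n ≠ 0) (huu : u ≫ u' = a • 𝟙 (𝟙_ C))
    (huw : u ≫ w' = n • 𝟙 (𝟙_ C)) (hwu : w ≫ u' = n • 𝟙 (𝟙_ C)) (hww : w ≫ w' = 0)
    (hev : finrank E (LinearMap.ker ((R.par M).hom - 1)) = 2) :
    ∃ e : M ⟶ M, (R.H.map e).hom = piPlus R M := by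
  have h0 := R.finite M
  set e : M ⟶ M := w' ≫ (n⁻¹ • u - (n⁻¹ * n⁻¹ * a) • w) + u' ≫ (n⁻¹ • w) with he
  have hue : u ≫ e = u := by
    rw [he, Preadditive.comp_add, reassoc_of% huw, reassoc_of% huu]
    simp only [Linear.smul_comp, Category.id_comp, smul_sub, smul_smul]
    rw [mul_inv_cancel₀ hn, one_smul, show n * (n⁻¹ * n⁻¹ * a) = n⁻¹ * a by field_simp,
      mul_comm a n⁻¹, sub_add_cancel]
  have hwe : w ≫ e = w := by
    rw [he, Preadditive.comp_add, reassoc_of% hww, reassoc_of% hwu]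
    simp only [Linear.smul_comp, Category.id_comp, smul_smul, zero_comp, zero_add]
    rw [mul_inv_cancel₀ hn, one_smul]
  have hnu : scl R (n • 𝟙 (𝟙_ C)) ≠ 0 := by
    intro h
    have h1 : (n • 𝟙 (𝟙_ C)) ≫ (n⁻¹ • 𝟙 (𝟙_ C)) = 𝟙 (𝟙_ C) := by
      rw [Linear.smul_comp, Category.id_comp, smul_smul, mul_inv_cancel₀ hn, one_smul]
    have h3 := scl_comp R (n • 𝟙 (𝟙_ C)) (n⁻¹ • 𝟙 (𝟙_ C))
    rw [h1, scl_one, h, zero_mul] at h3
    exact one_ne_zero h3
  have hli : LinearIndependent E ![vec R u, vec R w] := by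
    rw [LinearIndependent.pair_iff]
    intro s t hst
    have h3 := congrArg (fnl R w') hst
    rw [map_add, map_smul, map_smul, fnl_vec, fnl_vec, huw, hww, scl_zero, map_zero, smul_zero,
      add_zero, smul_eq_mul, mul_eq_zero] at h3
    have hs : s = 0 := h3.resolve_right hnu
    have h4 := congrArg (fnl R u') hst
    rw [hs, zero_smul, zero_add, map_smul, fnl_vec, hwu, map_zero, smul_eq_mul, mul_eq_zero] at h4
    exact ⟨hs, h4.resolve_right hnu⟩
  have hspan : LinearMap.ker ((R.par M).hom - 1) = Submodule.span E (Set.range ![vec R u, vec R w]) := by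
    symm
    apply Submodule.eq_of_le_of_finrank_eq
    · rw [Submodule.span_le]
      rintro _ ⟨i, rfl⟩
      rw [SetLike.mem_coe, LinearMap.mem_ker, LinearMap.sub_apply, sub_eq_zero]
      fin_cases i
      · exact par_vec R u
      · exact par_vec R w
    · rw [finrank_span_eq_card hli, hev]
      rfl
  have hid : ∀ t ∈ LinearMap.ker ((R.par M).hom - 1), (R.H.map e).hom t = t := by
    intro t ht
    rw [hspan] at ht
    induction ht using Submodule.span_induction with
    | mem t ht =>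
      obtain ⟨i, rfl⟩ := ht
      fin_cases i
      · exact (map_vec R u e).trans (congrArg (vec R) hue)
      · exact (map_vec R w e).trans (congrArg (vec R) hwe)
    | zero => exact map_zero _
    | add s t _ _ hs ht => rw [map_add, hs, ht]
    | smul c t _ ht => rw [map_smul, ht]
  have hpar : ∀ t, (R.H.map e).hom ((R.par M).hom t) = (R.H.map e).hom t := by
    intro t
    rw [he, Functor.map_add]
    change (R.H.map _).hom _ + (R.H.map _).hom _ = (R.H.map _).hom _ + (R.H.map _).hom _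
    rw [map_par_of_unit, map_par_of_unit]
  refine ⟨e, LinearMap.ext fun t => ?_⟩
  have h5 : piPlus R M t ∈ LinearMap.ker ((R.par M).hom - 1) := by
    rw [LinearMap.mem_ker, LinearMap.sub_apply, sub_eq_zero]
    change (R.par M).hom ((2⁻¹ : E) • (t + (R.par M).hom t)) = (2⁻¹ : E) • (t + (R.par M).hom t)
    rw [map_smul, map_add]
    have h6 : (R.par M).hom ((R.par M).hom t) = t := LinearMap.congr_fun (congrArg ModuleCat.Hom.hom (R.par_sq M)) t
    rw [h6, add_comm]
  have h7 : (R.H.map e).hom (piPlus R M t) = (R.H.map e).hom t := by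
    change (R.H.map e).hom ((2⁻¹ : E) • (t + (R.par M).hom t)) = _
    rw [map_smul, map_add, hpar, ← two_smul E ((R.H.map e).hom t), smul_smul, inv_mul_cancel₀ h2,
      one_smul]
  rw [← h7, hid _ h5]

end

end Pool.Agent.Q34.CF
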