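import Pool.Agent.Q34.CF.Val

/-!
# A prime with ramification index prime to `p` in extensions of degree prime to `p`
-/

set_option autoImplicit false
set_option linter.style.haveILetI false

open Module IsDedekindDomain

namespace Pool.Agent.Q34.CF

universe u v w

section

lemma sep {K : Type u} {L : Type v} [Field K] [Field L] [Algebra K L] [FiniteDimensional K L]
    {p : ℕ} [CharP K p] (h : ¬ p ∣ finrank K L) : Algebra.IsSeparable K L := by
  refine ⟨fun x => ?_⟩
  have hi : IsIntegral K x := IsIntegral.of_finite K x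
  rcases Polynomial.separable_or p (minpoly.irreducible hi) with h1 | ⟨-, g, -, hg⟩
  · exact h1
  · exfalso
    apply h
    have h2 : (minpoly K x).natDegree ∣ finrank K L := minpoly.degree_dvd hi
    rw [← hg, Polynomial.natDegree_expand] at h2
    exact (dvd_mul_left _ _).trans h2

lemma exists_val (R : Type w) (K : Type u) (L : Type v) [CommRing R] [IsDedekindDomain R]
    [Field K] [Algebra R K] [IsFractionRing R K] [Field L] [Algebra K L] [FiniteDimensional K L]
    {p : ℕ} [CharP K p] (h : ¬ p ∣ finrank K L) (P : HeightOneSpectrum R) :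
    ∃ (e : ℕ) (v : Valuation L (WithZero (Multiplicative ℤ))), ¬ p ∣ e ∧
      ∀ x : K, v (algebraMap K L x) = P.valuation K x ^ e := by
  have hsep : Algebra.IsSeparable K L := sep h
  letI : Algebra R L := ((algebraMap K L).comp (algebraMap R K)).toAlgebra
  haveI : IsScalarTower R K L := IsScalarTower.of_algebraMap_eq fun _ => rfl
  let B := integralClosure R L
  haveI : IsDedekindDomain B := integralClosure.isDedekindDomain R K L
  haveI : IsFractionRing B L := integralClosure.isFractionRing_of_finite_extension K L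
  haveI : Module.Finite R B := IsIntegralClosure.finite R K L B
  haveI : Module.IsTorsionFree R L := by
    rw [isTorsionFree_iff_algebraMap_injective]
    exact (algebraMap K L).injective.comp (IsFractionRing.injective R K)
  haveI : Module.IsTorsionFree R B := IsIntegralClosure.isTorsionFree R L
  have hsum := Ideal.sum_ramification_inertia (R := R) B K L (p := P.asIdeal) P.ne_bot
  obtain ⟨Q, hQ, hQe⟩ : ∃ Q ∈ IsDedekindDomain.primesOverFinset P.asIdeal B,
      ¬ p ∣ P.asIdeal.ramificationIdx' Q := by
    by_contra hcon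
    push Not at hcon
    apply h
    rw [← hsum]
    exact Finset.dvd_sum fun Q hQ => (hcon Q hQ).mul_right _
  obtain ⟨hQ1, hQ2⟩ := (IsDedekindDomain.mem_primesOverFinset_iff P.ne_bot _).1 hQ
  let W : HeightOneSpectrum B := ⟨Q, hQ1, Ideal.ne_bot_of_liesOver_of_ne_bot P.ne_bot Q⟩
  haveI : W.asIdeal.LiesOver P.asIdeal := hQ2
  exact ⟨_, W.valuation L, hQe, fun x => (P.valuation_liesOver L W x).symm⟩

/-- No zeros of the form in extensions of degree prime to `p`. -/
lemma no_zero (R : Type w) (K : Type u) (L : Type v) [CommRing R] [IsDedekindDomain R]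
    [Field K] [Algebra R K] [IsFractionRing R K] [Field L] [Algebra K L] [FiniteDimensional K L]
    {p : ℕ} (hp : p.Prime) (hp2 : p ≠ 2) [CharP K p] (h : ¬ p ∣ finrank K L)
    (P : HeightOneSpectrum R) {s : K} (hs : P.valuation K s = WithZero.exp (-1 : ℤ)) {x y z : L}
    (hxyz : x ^ p + algebraMap K L s * y ^ p + algebraMap K L s ^ 2 * z ^ p +
      algebraMap K L s ^ 2 * (x ^ (p - 1) * y + y ^ (p - 1) * z) = 0) :
    x = 0 ∧ y = 0 ∧ z = 0 := by
  obtain ⟨e, v, he, hv⟩ := exists_val R K L h P
  have hp3 : 3 ≤ p := by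
    have := hp.two_le
    omega
  have hvs : v (algebraMap K L s) = WithZero.exp (-(e : ℤ)) := by
    rw [hv, hs, ← WithZero.exp_nsmul]
    simp
  have he0 : 0 < e := Nat.pos_of_ne_zero fun h0 => he (h0 ▸ dvd_zero p)
  have key : ∀ (m : ℕ), ¬ p ∣ m → ∀ u : WithZero (Multiplicative ℤ),
      u ^ p ≠ WithZero.exp (-(m : ℤ)) := by
    intro m hm u hu
    have hu0 : u ≠ 0 := by
      rintro rfl
      rw [zero_pow hp.ne_zero] at hu
      exact WithZero.exp_ne_zero hu.symm
    have h1 : u = WithZero.exp (WithZero.log u) := (WithZero.exp_log hu0).symm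
    rw [h1, ← WithZero.exp_nsmul, WithZero.exp_inj] at hu
    apply hm
    have h2 : (p : ℤ) ∣ (m : ℤ) := ⟨-(WithZero.log u), by
      have : (p : ℤ) * WithZero.log u = -(m : ℤ) := by simpa using hu
      linarith⟩
    exact_mod_cast h2
  refine main v hp3 ?_ ?_ ?_ ?_ hxyz
  · rw [hvs]
    exact WithZero.exp_ne_zero
  · rw [hvs, ← WithZero.exp_zero, WithZero.exp_lt_exp]
    omega
  · rw [hvs]
    exact key e he
  · rw [hvs, ← WithZero.exp_nsmul]
    have h3 : (2 : ℕ) • (-(e : ℤ)) = -((2 * e : ℕ) : ℤ) := by
      push_cast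
      ring
    rw [h3]
    apply key
    intro hd
    rcases hp.dvd_mul.1 hd with h4 | h4
    · exact hp2 ((Nat.prime_dvd_prime_iff_eq hp Nat.prime_two).1 h4)
    · exact he h4

end

end Pool.Agent.Q34.CF
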