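import Mathlib

/-!
# A form without zeros over valued fields where `s` and `s ^ 2` are not `p`-th powers in value
-/

set_option autoImplicit false

namespace Pool.Agent.Q34.CF

section

variable {L Γ : Type*} [Field L] [LinearOrderedCommGroupWithZero Γ] (v : Valuation L Γ)
  {s : L} {p : ℕ}

lemma t4_lt (hp : 3 ≤ p) (hs : v s < 1) {x y : L} {M : Γ} (hM : M ≠ 0)
    (h1 : v (x ^ p) ≤ M) (h2 : v (s * y ^ p) ≤ M) : v (s ^ 2 * (x ^ (p - 1) * y)) < M := by
  have hp0 : p ≠ 0 := by omega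
  refine lt_of_pow_lt_pow_left₀ p zero_le ?_
  have e1 : v (s ^ 2 * (x ^ (p - 1) * y)) ^ p =
      v (x ^ p) ^ (p - 1) * v (s * y ^ p) * v s ^ (2 * p - 1) := by
    obtain ⟨q, rfl⟩ : ∃ q, p = q + 1 := ⟨p - 1, by omega⟩
    simp only [Nat.add_sub_cancel]
    have : 2 * (q + 1) - 1 = 2 * q + 1 := by omega
    rw [this, ← map_pow, ← map_pow, ← map_pow, ← map_mul, ← map_mul]
    congr 1
    ring
  rw [e1]
  have h3 : v (x ^ p) ^ (p - 1) * v (s * y ^ p) ≤ M ^ p := by
    calc v (x ^ p) ^ (p - 1) * v (s * y ^ p) ≤ M ^ (p - 1) * M :=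
          mul_le_mul' (pow_le_pow_left' h1 _) h2
      _ = M ^ p := by rw [← pow_succ]; congr 1; omega
  calc v (x ^ p) ^ (p - 1) * v (s * y ^ p) * v s ^ (2 * p - 1)
      ≤ M ^ p * v s ^ (2 * p - 1) := mul_le_mul_left h3 _
    _ < M ^ p * 1 := by
        refine mul_lt_mul_of_pos_left (pow_lt_one₀ zero_le hs (by omega)) ?_
        exact pow_pos (zero_lt_iff.2 hM) _
    _ = M ^ p := mul_one _

lemma t5_lt (hp : 3 ≤ p) (hs : v s < 1) {y z : L} {M : Γ} (hM : M ≠ 0)
    (h2 : v (s * y ^ p) ≤ M) (h3 : v (s ^ 2 * z ^ p) ≤ M) :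
    v (s ^ 2 * (y ^ (p - 1) * z)) < M := by
  have hp0 : p ≠ 0 := by omega
  refine lt_of_pow_lt_pow_left₀ p zero_le ?_
  have e1 : v (s ^ 2 * (y ^ (p - 1) * z)) ^ p =
      v (s * y ^ p) ^ (p - 1) * v (s ^ 2 * z ^ p) * v s ^ (p - 1) := by
    obtain ⟨q, rfl⟩ : ∃ q, p = q + 1 := ⟨p - 1, by omega⟩
    simp only [Nat.add_sub_cancel]
    rw [← map_pow, ← map_pow, ← map_pow, ← map_mul, ← map_mul]
    congr 1
    ring
  rw [e1]
  have h4 : v (s * y ^ p) ^ (p - 1) * v (s ^ 2 * z ^ p) ≤ M ^ p := by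
    calc v (s * y ^ p) ^ (p - 1) * v (s ^ 2 * z ^ p) ≤ M ^ (p - 1) * M :=
          mul_le_mul' (pow_le_pow_left' h2 _) h3
      _ = M ^ p := by rw [← pow_succ]; congr 1; omega
  calc v (s * y ^ p) ^ (p - 1) * v (s ^ 2 * z ^ p) * v s ^ (p - 1)
      ≤ M ^ p * v s ^ (p - 1) := mul_le_mul_left h4 _
    _ < M ^ p * 1 := by
        refine mul_lt_mul_of_pos_left (pow_lt_one₀ zero_le hs (by omega)) ?_
        exact pow_pos (zero_lt_iff.2 hM) _
    _ = M ^ p := mul_one _

lemma ne12 (h1 : ∀ u : Γ, u ^ p ≠ v s) {x y : L} (h : v (x ^ p) = v (s * y ^ p)) :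
    v (x ^ p) = 0 := by
  by_contra hx
  simp only [map_pow, map_mul] at h hx
  have hy : v y ^ p ≠ 0 := by
    intro hy
    rw [hy, mul_zero] at h
    exact hx h
  apply h1 (v x / v y)
  rw [div_pow, h, mul_div_assoc, div_self hy, mul_one]

lemma main (hp : 3 ≤ p) (hs0 : v s ≠ 0) (hs : v s < 1) (h1 : ∀ u : Γ, u ^ p ≠ v s)
    (h2 : ∀ u : Γ, u ^ p ≠ v s ^ 2) {x y z : L}
    (h : x ^ p + s * y ^ p + s ^ 2 * z ^ p +
      s ^ 2 * (x ^ (p - 1) * y + y ^ (p - 1) * z) = 0) : x = 0 ∧ y = 0 ∧ z = 0 := by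
  have hp0 : p ≠ 0 := by omega
  set A := v (x ^ p) with hA
  set B := v (s * y ^ p) with hB
  set D := v (s ^ 2 * z ^ p) with hD
  have hAB : A = B → A = 0 := fun h' => ne12 v h1 h'
  have hAD : A = D → A = 0 := by
    intro h'
    by_contra hx
    rw [hA, hD] at h'
    rw [hA] at hx
    simp only [map_pow, map_mul] at h' hx
    have hy : v z ^ p ≠ 0 := by
      intro hy
      rw [hy, mul_zero] at h'
      exact hx h'
    apply h2 (v x / v z)
    rw [div_pow, h', mul_div_assoc, div_self hy, mul_one]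
  have hBD : B = D → B = 0 := by
    intro h'
    by_contra hx
    rw [hB, hD] at h'
    rw [hB] at hx
    simp only [map_pow, map_mul] at h' hx
    have hy : v z ^ p ≠ 0 := by
      intro hy
      rw [hy, mul_zero] at h'
      exact hx h'
    apply h1 (v y / v z)
    rw [div_pow, div_eq_iff hy]
    have h3 : v s * v y ^ p = v s * (v s * v z ^ p) := by rw [h', ← mul_assoc, sq]
    exact mul_left_cancel₀ hs0 h3
  set T4 := s ^ 2 * (x ^ (p - 1) * y) with hT4
  set T5 := s ^ 2 * (y ^ (p - 1) * z) with hT5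
  -- the maximum
  set M := max A (max B D) with hM
  have hAM : A ≤ M := le_max_left _ _
  have hBM : B ≤ M := (le_max_left _ _).trans (le_max_right _ _)
  have hDM : D ≤ M := (le_max_right _ _).trans (le_max_right _ _)
  by_cases hM0 : M = 0
  · have a1 : v (x ^ p) = 0 := le_antisymm (hM0 ▸ hAM) zero_le
    have a2 : v (s * y ^ p) = 0 := le_antisymm (hM0 ▸ hBM) zero_le
    have a3 : v (s ^ 2 * z ^ p) = 0 := le_antisymm (hM0 ▸ hDM) zero_le
    simp only [map_pow, map_mul, mul_eq_zero, pow_eq_zero_iff hp0, hs0, pow_eq_zero_iff two_ne_zero,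
      false_or, map_eq_zero] at a1 a2 a3
    exact ⟨a1, a2, a3⟩
  · exfalso
    have h4 : v T4 < M := t4_lt v hp hs hM0 hAM hBM
    have h5 : v T5 < M := t5_lt v hp hs hM0 hBM hDM
    have hsum : x ^ p + s * y ^ p + s ^ 2 * z ^ p + (T4 + T5) = 0 := by
      rw [hT4, hT5, ← mul_add]
      exact h
    have h45 : v (T4 + T5) < M := (v.map_add _ _).trans_lt (max_lt h4 h5)
    rcases max_choice A (max B D) with hc | hc
    · -- `A` is the maximum
      have c1 : M = A := hc
      have c2 : B < A := lt_of_le_of_ne (c1 ▸ hBM) fun e => hM0 (c1.trans (hAB e.symm))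
      have c3 : D < A := lt_of_le_of_ne (c1 ▸ hDM) fun e => hM0 (c1.trans (hAD e.symm))
      rw [c1] at h45
      have c4 : x ^ p = -(s * y ^ p + s ^ 2 * z ^ p + (T4 + T5)) := by linear_combination hsum
      have c5 : v (x ^ p) < A := by
        rw [c4, Valuation.map_neg]
        exact (v.map_add _ _).trans_lt (max_lt ((v.map_add _ _).trans_lt (max_lt c2 c3)) h45)
      exact lt_irrefl _ c5
    · rcases max_choice B D with hc' | hc'
      · have c1 : M = B := hc.trans hc'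
        have hB0 : B ≠ 0 := c1 ▸ hM0
        have c2 : A < B := lt_of_le_of_ne (c1 ▸ hAM) fun e => hB0 (e ▸ hAB e)
        have c3 : D < B := lt_of_le_of_ne (c1 ▸ hDM) fun e => hB0 (hBD e.symm)
        rw [c1] at h45
        have c4 : s * y ^ p = -(x ^ p + s ^ 2 * z ^ p + (T4 + T5)) := by linear_combination hsum
        have c5 : v (s * y ^ p) < B := by
          rw [c4, Valuation.map_neg]
          exact (v.map_add _ _).trans_lt (max_lt ((v.map_add _ _).trans_lt (max_lt c2 c3)) h45)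
        exact lt_irrefl _ c5
      · have c1 : M = D := hc.trans hc'
        have hD0 : D ≠ 0 := c1 ▸ hM0
        have c2 : A < D := lt_of_le_of_ne (c1 ▸ hAM) fun e => hD0 (e ▸ hAD e)
        have c3 : B < D := lt_of_le_of_ne (c1 ▸ hBM) fun e => hD0 (e ▸ hBD e)
        rw [c1] at h45
        have c4 : s ^ 2 * z ^ p = -(x ^ p + s * y ^ p + (T4 + T5)) := by linear_combination hsum
        have c5 : v (s ^ 2 * z ^ p) < D := by
          rw [c4, Valuation.map_neg]
          exact (v.map_add _ _).trans_lt (max_lt ((v.map_add _ _).trans_lt (max_lt c2 c3)) h45)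
        exact lt_irrefl _ c5

end

end Pool.Agent.Q34.CF
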